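import Mathlib

/-! Words, balls, elements with finite conjugacy class, loops of automata. -/

namespace Pool.Agent.MP_1ca372_al.H84

section Words

variable {G : Type*} [Group G] {α : Type*} (gen : α → G)

/-- value of a word -/
def ev (w : List α) : G := (w.map gen).prod

@[simp] lemma ev_nil : ev gen [] = 1 := by simp [ev]

@[simp] lemma ev_append (u v : List α) : ev gen (u ++ v) = ev gen u * ev gen v := by simp [ev]

@[simp] lemma ev_single (a : α) : ev gen [a] = gen a := by simp [ev]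

/-- ball of radius r -/
def Ball (r : ℕ) : Set G := {g | ∃ b : List α, b.length ≤ r ∧ ev gen b = g}

lemma one_mem_ball (r : ℕ) : (1 : G) ∈ Ball gen r := ⟨[], by simp, by simp⟩

variable {gen}

lemma ball_mono {r r' : ℕ} (h : r ≤ r') {g : G} (hg : g ∈ Ball gen r) : g ∈ Ball gen r' := by
  obtain ⟨b, h1, h2⟩ := hg
  exact ⟨b, h1.trans h, h2⟩

lemma ball_mul {r r' : ℕ} {g g' : G} (hg : g ∈ Ball gen r) (hg' : g' ∈ Ball gen r') :
    g * g' ∈ Ball gen (r + r') := by
  obtain ⟨b, h1, rfl⟩ := hg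
  obtain ⟨b', h2, rfl⟩ := hg'
  exact ⟨b ++ b', by simp; omega, by simp⟩

variable (gen) in
lemma ball_finite [Finite α] (r : ℕ) : (Ball gen r).Finite :=
  ((List.finite_length_le α r).image (ev gen)).subset fun _ ⟨b, h1, h2⟩ => ⟨b, h1, h2⟩

variable (gen) in
/-- the point of the path `w` at time `t` -/
def pt (w : List α) (t : ℕ) : G := ev gen (w.take t)

/-- the piece of `w` between the times `s` and `t` -/
def seg (w : List α) (s t : ℕ) : List α := (w.take t).drop s

lemma take_seg (w : List α) {s t : ℕ} (h : s ≤ t) : w.take s ++ seg w s t = w.take t := by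
  have : w.take s = (w.take t).take s := by rw [List.take_take, min_eq_left h]
  rw [this, seg, List.take_append_drop]

lemma seg_len {w : List α} {s t : ℕ} (h : t ≤ w.length) : (seg w s t).length = t - s := by
  simp [seg, min_eq_left h]

lemma seg_len_le (w : List α) (s t : ℕ) : (seg w s t).length ≤ t - s := by
  simp only [seg, List.length_drop, List.length_take]
  omega

lemma pt_seg (w : List α) {s t : ℕ} (h : s ≤ t) : pt gen w t = pt gen w s * ev gen (seg w s t) := by
  rw [pt, pt, ← ev_append, take_seg w h]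

lemma pt_ball (w : List α) {s t : ℕ} (h : s ≤ t) : (pt gen w s)⁻¹ * pt gen w t ∈ Ball gen (t - s) := by
  rw [pt_seg w h, inv_mul_cancel_left]
  exact ⟨_, seg_len_le w s t, rfl⟩

lemma pt_end {w : List α} {t : ℕ} (h : w.length ≤ t) : pt gen w t = ev gen w := by
  rw [pt, List.take_of_length_le h]

/-- power of a word -/
def wp (k : ℕ) (u : List α) : List α := (List.replicate k u).flatten

lemma wp_succ (k : ℕ) (u : List α) : wp (k + 1) u = u ++ wp k u := by
  simp [wp, List.replicate_succ]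

lemma wp_len (k : ℕ) (u : List α) : (wp k u).length = k * u.length := by
  simp [wp]

lemma ev_wp (k : ℕ) (u : List α) : ev gen (wp k u) = ev gen u ^ k := by
  induction k with
  | zero => simp [wp]
  | succ k ih => rw [wp_succ, ev_append, ih, pow_succ']

end Words

section FC

variable {G : Type*} [Group G]

/-- finite conjugacy class -/
def FinC (g : G) : Prop := (Set.range fun h : G => h⁻¹ * g * h).Finite

/-- some power has a finite conjugacy class -/
def FC (g : G) : Prop := ∃ m, 0 < m ∧ FinC (g ^ m)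

lemma FinC.pow {g : G} (h : FinC g) (k : ℕ) : FinC (g ^ k) := by
  refine (h.image (· ^ k)).subset ?_
  rintro _ ⟨x, rfl⟩
  refine ⟨_, ⟨x, rfl⟩, ?_⟩
  simpa using conj_pow (a := x⁻¹) (b := g) (i := k)

lemma FinC.conj {g : G} (h : FinC g) (a : G) : FinC (a⁻¹ * g * a) := by
  refine h.subset ?_
  rintro _ ⟨x, rfl⟩
  exact ⟨a * x, by simp [mul_assoc]⟩

lemma conj_pow' (a g : G) (k : ℕ) : (a⁻¹ * g * a) ^ k = a⁻¹ * g ^ k * a := by
  simpa using conj_pow (a := a⁻¹) (b := g) (i := k)

lemma FC.conj {g : G} (h : FC g) (a : G) : FC (a⁻¹ * g * a) := by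
  obtain ⟨m, h1, h2⟩ := h
  exact ⟨m, h1, by rw [conj_pow']; exact h2.conj a⟩

lemma FC.of_conj {g a : G} (h : FC (a⁻¹ * g * a)) : FC g := by
  simpa [mul_assoc] using h.conj a⁻¹

lemma FC.pow {g : G} (h : FC g) (k : ℕ) : FC (g ^ k) := by
  obtain ⟨m, h1, h2⟩ := h
  exact ⟨m, h1, by rw [← pow_mul, mul_comm, pow_mul]; exact h2.pow k⟩

lemma FC.of_pow {g : G} {k : ℕ} (hk : 0 < k) (h : FC (g ^ k)) : FC g := by
  obtain ⟨m, h1, h2⟩ := h
  exact ⟨k * m, Nat.mul_pos hk h1, by rwa [pow_mul]⟩

lemma FC.one : FC (1 : G) := ⟨1, one_pos, by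
  refine (Set.finite_singleton 1).subset ?_
  rintro _ ⟨x, rfl⟩
  simp⟩

lemma FinC.fc {g : G} (h : FinC g) : FC g := ⟨1, one_pos, by simpa using h⟩

lemma FinC.cent {g : G} (h : FinC g) : (Subgroup.centralizer {g}).FiniteIndex := by
  have : Finite (Set.range fun h : G => h⁻¹ * g * h) := h
  have : Finite (G ⧸ Subgroup.centralizer {g}) := by
    refine Finite.of_injective (β := Set.range fun h : G => h⁻¹ * g * h)
      (fun q => ⟨(Quotient.out q) * g * (Quotient.out q)⁻¹, ⟨(Quotient.out q)⁻¹, by simp⟩⟩) ?_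
    intro q q' hq
    have h1 : (Quotient.out q) * g * (Quotient.out q)⁻¹ =
        (Quotient.out q') * g * (Quotient.out q')⁻¹ := congrArg Subtype.val hq
    rw [← Quotient.out_eq q, ← Quotient.out_eq q']
    refine QuotientGroup.eq.2 (Subgroup.mem_centralizer_iff.2 ?_)
    intro z hz
    rw [Set.mem_singleton_iff.1 hz]
    set x := Quotient.out q
    set y := Quotient.out q'
    calc _ = x⁻¹ * (x * g * x⁻¹) * y := by group
      _ = _ := by rw [h1]; group
  exact Subgroup.finiteIndex_of_finite_quotient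

/-- the normal subgroup generated by powers of the virtually FC elements of a finite set -/
lemma exists_core {S : Set G} (hS : S.Finite) : ∃ (m e : ℕ) (A : Subgroup G), 0 < m ∧ 0 < e ∧
    A.Normal ∧ (∀ x ∈ S, FC x → x ^ m ∈ A) ∧ (∀ g, ∀ a ∈ A, Commute (g ^ e) a) ∧
    (A.FiniteIndex → ∃ H : Subgroup G, H.FiniteIndex ∧ ∀ a ∈ H, ∀ b ∈ H, a * b = b * a) := by
  classical
  have h1 : ∀ x : G, ∃ m, 0 < m ∧ (FC x → FinC (x ^ m)) := fun x => by
    by_cases h : FC x
    · obtain ⟨m, h1, h2⟩ := h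
      exact ⟨m, h1, fun _ => h2⟩
    · exact ⟨1, one_pos, fun h' => (h h').elim⟩
  choose f f1 f2 using h1
  set m := ∏ x ∈ hS.toFinset, f x with hm
  have h2 : ∀ x ∈ S, FC x → FinC (x ^ m) := fun x hx h => by
    obtain ⟨k, hk⟩ : f x ∣ m := Finset.dvd_prod_of_mem f (by simpa using hx)
    rw [hk, pow_mul]
    exact (f2 x h).pow k
  set T : Set G := ⋃ x ∈ {x ∈ S | FC x}, Set.range fun h : G => h⁻¹ * x ^ m * h with hT
  have h3 : T.Finite := (hS.subset fun x hx => hx.1).biUnion fun x hx => h2 x hx.1 hx.2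
  have h4 : ∀ y ∈ T, FinC y := fun y hy => by
    simp only [hT, Set.mem_iUnion] at hy
    obtain ⟨x, hx, h, rfl⟩ := hy
    exact (h2 x hx.1 hx.2).conj h
  have h5 : ∀ y ∈ T, ∀ g : G, g * y * g⁻¹ ∈ T := fun y hy g => by
    simp only [hT, Set.mem_iUnion] at hy ⊢
    obtain ⟨x, hx, h, rfl⟩ := hy
    exact ⟨x, hx, h * g⁻¹, by simp [mul_assoc]⟩
  set C : Subgroup G := ⨅ y ∈ h3.toFinset, Subgroup.centralizer {y} with hC
  have h6 : C.FiniteIndex :=
    Subgroup.finiteIndex_iInf' _ fun y hy => (h4 y (by simpa using hy)).cent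
  have h7 : ∀ c ∈ C, ∀ a ∈ Subgroup.closure T, Commute c a := fun c hc a ha => by
    induction ha using Subgroup.closure_induction with
    | mem y hy =>
      have := Subgroup.mem_iInf.1 (Subgroup.mem_iInf.1 hc y) (by simpa using hy)
      exact (Subgroup.mem_centralizer_iff.1 this y rfl).symm
    | one => exact Commute.one_right c
    | mul _ _ _ _ k1 k2 => exact k1.mul_right k2
    | inv _ _ k => exact k.inv_right
  refine ⟨m, C.normalCore.index, Subgroup.closure T, Finset.prod_pos fun x _ => f1 x,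
    Nat.pos_of_ne_zero Subgroup.FiniteIndex.index_ne_zero, ⟨fun a ha g => ?_⟩,
    fun x hx h => Subgroup.subset_closure ?_,
    fun g a ha => h7 _ (C.normalCore_le (C.normalCore.pow_index_mem g)) a ha,
    fun hA => ⟨Subgroup.closure T ⊓ C, inferInstance, fun a ha b hb => (h7 a ha.2 b hb.1).eq⟩⟩
  · induction ha using Subgroup.closure_induction with
    | mem y hy => exact Subgroup.subset_closure (h5 y hy g)
    | one => simp
    | mul x y _ _ k1 k2 =>
      have := Subgroup.mul_mem _ k1 k2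
      simpa [mul_assoc] using this
    | inv x _ k =>
      have := Subgroup.inv_mem _ k
      simpa [mul_assoc] using this
  · simp only [hT, Set.mem_iUnion]
    exact ⟨x, ⟨hx, h⟩, 1, by simp⟩

end FC

section Auto

variable {α σ : Type*} (M : DFA α σ)

/-- a state with two different loops of the same length -/
def Br (q : σ) : Prop :=
  ∃ u v : List α, u ≠ v ∧ u.length = v.length ∧ M.evalFrom q u = q ∧ M.evalFrom q v = q

/-- state at time t -/
def st (w : List α) (t : ℕ) : σ := M.eval (w.take t)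

lemma st_seg (w : List α) {s t : ℕ} (h : s ≤ t) :
    M.evalFrom (st M w s) (seg w s t) = st M w t := by
  rw [st, st, DFA.eval, ← DFA.evalFrom_of_append, take_seg w h]

/-- number of states reachable from q -/
noncomputable def ht (q : σ) : ℕ := {q' | ∃ y, M.evalFrom q y = q'}.ncard

variable {M}

lemma loop_wp {q : σ} {u : List α} (h : M.evalFrom q u = q) (k : ℕ) :
    M.evalFrom q (wp k u) = q := by
  induction k with
  | zero => simp [wp]
  | succ k ih => rw [wp_succ, DFA.evalFrom_of_append, h, ih]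

lemma loop_eq {q : σ} (hq : ¬ Br M q) {u v : List α} (hl : u.length = v.length)
    (hu : M.evalFrom q u = q) (hv : M.evalFrom q v = q) : u = v := by
  by_contra h
  exact hq ⟨u, v, h, hl, hu, hv⟩

lemma loop_take {q : σ} (hq : ¬ Br M q) {x z : List α} (h0 : 0 < z.length)
    (hl : z.length ≤ x.length) (hx : M.evalFrom q x = q) (hz : M.evalFrom q z = q) :
    x.take z.length = z := by
  have h1 := loop_eq hq (u := wp z.length x) (v := wp x.length z)
    (by rw [wp_len, wp_len, mul_comm]) (loop_wp hx _) (loop_wp hz _)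
  obtain ⟨i, hi⟩ : ∃ i, z.length = i + 1 := ⟨z.length - 1, by omega⟩
  obtain ⟨j, hj⟩ : ∃ j, x.length = j + 1 := ⟨x.length - 1, by omega⟩
  have h2 := congrArg (List.take z.length) h1
  nth_rw 2 [hi] at h2
  rw [hj, wp_succ, wp_succ, List.take_append_of_le_length hl, List.take_left'  rfl] at h2
  exact h2

variable (M) in
lemma exists_period [Finite σ] : ∃ P, 2 ≤ P ∧ ∀ q x, 0 < x.length → M.evalFrom q x = q →
    ∃ z : List α, z.length = P ∧ M.evalFrom q z = q := by
  classical
  have := Fintype.ofFinite σ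
  have h1 : ∀ q : σ, ∃ c, 0 < c ∧ ∀ x : List α, 0 < x.length → M.evalFrom q x = q →
      ∃ z : List α, z.length = c ∧ M.evalFrom q z = q := fun q => by
    by_cases h : ∃ x : List α, 0 < x.length ∧ M.evalFrom q x = q
    · obtain ⟨x, k1, k2⟩ := h
      exact ⟨_, k1, fun _ _ _ => ⟨x, rfl, k2⟩⟩
    · exact ⟨1, one_pos, fun x k1 k2 => (h ⟨x, k1, k2⟩).elim⟩
  choose c c1 c2 using h1
  have h2 : 0 < ∏ q, c q := Finset.prod_pos fun q _ => c1 q
  refine ⟨2 * ∏ q, c q, by omega, fun q x k1 k2 => ?_⟩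
  obtain ⟨z, k3, k4⟩ := c2 q x k1 k2
  obtain ⟨k, hk⟩ : c q ∣ ∏ q, c q := Finset.dvd_prod_of_mem c (Finset.mem_univ q)
  exact ⟨wp (2 * k) z, by rw [wp_len, k3, hk]; ring, loop_wp k4 _⟩

lemma ht_pos [Finite σ] (q : σ) : 0 < ht M q :=
  (Set.ncard_pos (Set.toFinite _)).2 ⟨q, [], rfl⟩

lemma ht_le [Finite σ] (q : σ) : ht M q ≤ Nat.card σ := by
  rw [ht, ← Set.ncard_univ]
  exact Set.ncard_le_ncard (Set.subset_univ _) (Set.toFinite _)

lemma ht_lt [Finite σ] {q q' : σ} {x : List α} (h : M.evalFrom q x = q')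
    (h' : ¬ ∃ y, M.evalFrom q' y = q) : ht M q' < ht M q := by
  refine Set.ncard_lt_ncard ⟨?_, fun k => h' (k ⟨[], rfl⟩)⟩ (Set.toFinite _)
  rintro _ ⟨y, rfl⟩
  exact ⟨x ++ y, by rw [DFA.evalFrom_of_append, h]⟩

end Auto

/-- a long interval contains a long block that avoids a small set -/
lemma block {X : Set ℕ} (hX : X.Finite) {n : ℕ} (hn : X.ncard ≤ n) (c T : ℕ) :
    ∃ a, c ≤ a ∧ a + T ≤ c + (n + 1) * T ∧ ∀ t, a ≤ t → t < a + T → t ∉ X := by
  by_contra h
  push Not at h
  have h1 : ∀ i : Fin (n + 1), ∃ t, c + i * T ≤ t ∧ t < c + i * T + T ∧ t ∈ X := fun i =>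
    h (c + i * T) (by omega) (by have := i.2; nlinarith)
  choose f f1 f2 f3 using h1
  have h2 : Function.Injective f := fun i j hij => by
    have k1 := f1 i
    have k2 := f2 i
    have k3 := f1 j
    have k4 := f2 j
    rw [hij] at k1 k2
    apply Fin.ext
    by_contra k
    rcases Nat.lt_or_gt_of_ne k with k | k <;> nlinarith
  have h3 := Set.ncard_le_ncard_of_injOn (s := Set.univ) f (fun i _ => f3 i) h2.injOn hX
  rw [Set.ncard_univ, Nat.card_fin] at h3
  omega

end Pool.Agent.MP_1ca372_al.H84
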