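import Pool.Agent.MP_1ca372_al.H84.Struct

/-! Invariant means and the paradoxical insertion maps. -/

namespace Pool.Agent.MP_1ca372_al.H84

open scoped ENNReal

variable {G : Type*} [Group G] {α σ : Type*}

/-- right invariant finitely additive probability -/
structure RMean (μ : Set G → ℝ≥0∞) : Prop where
  univ : μ Set.univ = 1
  add : ∀ s t, Disjoint s t → μ (s ∪ t) = μ s + μ t
  inv : ∀ g s, μ ((· * g) '' s) = μ s

variable {μ : Set G → ℝ≥0∞}

lemma RMean.mono (h : RMean μ) {s t : Set G} (hst : s ⊆ t) : μ s ≤ μ t := by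
  rw [← Set.union_sdiff_cancel hst, h.add _ _ Set.disjoint_sdiff_right]
  exact le_self_add

lemma RMean.ne_top (h : RMean μ) (s : Set G) : μ s ≠ ∞ :=
  ne_top_of_le_ne_top (by rw [h.univ]; simp) (h.mono (Set.subset_univ s))

lemma RMean.union_le (h : RMean μ) (s t : Set G) : μ (s ∪ t) ≤ μ s + μ t := by
  rw [← Set.union_sdiff_self, h.add _ _ Set.disjoint_sdiff_right]
  exact add_le_add le_rfl (h.mono Set.sdiff_subset)

lemma RMean.zero_of (h : RMean μ) {s : Set G} (hs : μ s + μ s ≤ μ s) : μ s = 0 := by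
  have h1 : μ s + μ s ≤ μ s + 0 := by simpa using hs
  exact le_antisymm ((ENNReal.add_le_add_iff_left (h.ne_top s)).1 h1) bot_le

lemma RMean.empty (h : RMean μ) : μ ∅ = 0 :=
  h.zero_of (by rw [← h.add _ _ (by simp)]; simp)

lemma RMean.piece (h : RMean μ) {F : Set G} (hF : F.Finite) (φ : G → G) :
    ∀ s : Set G, Set.InjOn φ s → (∀ g ∈ s, g⁻¹ * φ g ∈ F) → μ (φ '' s) = μ s := by
  induction F, hF using Set.Finite.induction_on with
  | empty =>
    intro s _ h2
    rw [Set.eq_empty_of_forall_notMem fun g hg => h2 g hg, Set.image_empty]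
  | @insert f F _ _ ih =>
    intro s h1 h2
    have k1 : s = {g ∈ s | φ g = g * f} ∪ {g ∈ s | φ g ≠ g * f} := by
      ext g
      simp only [Set.mem_union, Set.mem_ofPred_eq]
      tauto
    have k2 : Disjoint {g ∈ s | φ g = g * f} {g ∈ s | φ g ≠ g * f} :=
      Set.disjoint_left.2 fun g k k' => k'.2 k.2
    have k3 : Disjoint (φ '' {g ∈ s | φ g = g * f}) (φ '' {g ∈ s | φ g ≠ g * f}) := by
      refine Set.disjoint_left.2 ?_
      rintro _ ⟨g, k3, rfl⟩ ⟨g', k4, k5⟩
      obtain rfl := h1 k4.1 k3.1 k5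
      exact k4.2 k3.2
    have k4 := ih {g ∈ s | φ g ≠ g * f} (h1.mono fun g k => k.1) fun g k =>
      (h2 g k.1).resolve_left fun k3 => k.2 (by rw [← k3, mul_inv_cancel_left])
    have k5 : φ '' {g ∈ s | φ g = g * f} = (· * f) '' {g ∈ s | φ g = g * f} :=
      Set.image_congr fun g k => k.2
    rw [k1, Set.image_union, h.add _ _ k2, h.add _ _ k3, k4, k5, h.inv]

lemma RMean.mul_zero (h : RMean μ) {s F : Set G} (hF : F.Finite) (hs : μ s = 0) :
    μ (Set.image2 (· * ·) s F) = 0 := by
  induction F, hF using Set.Finite.induction_on with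
  | empty => simpa using h.empty
  | @insert f F _ _ ih =>
    rw [Set.image2_insert_right]
    refine le_antisymm ((h.union_le _ _).trans ?_) bot_le
    rw [ih, h.inv, hs, add_zero]

lemma RMean.subgroup (h : RMean μ) {A : Subgroup G} (hA : A.Normal) (hi : ¬ A.FiniteIndex) :
    μ A = 0 := by
  have h1 : ∀ k : ℕ, ∃ F : Set G, F.Finite ∧ k * μ A ≤ μ (Set.image2 (· * ·) A F) := by
    intro k
    induction k with
    | zero => exact ⟨∅, Set.finite_empty, by simp⟩
    | succ k ih =>
      obtain ⟨F, k1, k2⟩ := ih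
      have k3 : ∃ g, g ∉ Set.image2 (· * ·) (A : Set G) F := by
        by_contra k3
        push Not at k3
        have : Finite F := k1
        have : Finite (G ⧸ A) := Finite.of_surjective (fun f : F => (f.1 : G ⧸ A)) fun q => by
          obtain ⟨g, rfl⟩ := QuotientGroup.mk_surjective q
          obtain ⟨a, ha, f, hf, rfl⟩ := k3 g
          refine ⟨⟨f, hf⟩, QuotientGroup.eq.2 ?_⟩
          simpa [mul_assoc] using hA.conj_mem a ha f⁻¹
        exact hi Subgroup.finiteIndex_of_finite_quotient
      obtain ⟨g, hg⟩ := k3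
      refine ⟨insert g F, k1.insert g, ?_⟩
      rw [Set.image2_insert_right, h.add, h.inv, Nat.cast_succ, add_mul, one_mul, add_comm]
      · exact add_le_add le_rfl k2
      · refine Set.disjoint_left.2 ?_
        rintro _ ⟨a, ha, rfl⟩ ⟨a', ha', f, hf, k4⟩
        refine hg ⟨a⁻¹ * a', A.mul_mem (A.inv_mem ha) ha', f, hf, ?_⟩
        simp only at k4 ⊢
        rw [mul_assoc, k4, inv_mul_cancel_left]
  by_contra h2
  obtain ⟨k, hk⟩ := ENNReal.exists_nat_mul_gt h2 (h.ne_top Set.univ)
  obtain ⟨F, -, k2⟩ := h1 k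
  exact absurd (k2.trans (h.mono (Set.subset_univ _))) (not_le.2 hk)

variable {gen : α → G} {M : DFA α σ} {nf : G → List α} {B : Set G} {P : ℕ}

/-- insert a loop at the last branching time -/
noncomputable def ins (M : DFA α σ) (U : σ → List α) (w : List α) : List α :=
  w.take (beta M w) ++ U (st M w (beta M w)) ++ w.drop (beta M w)

section Ins

variable {U : σ → List α} {w : List α}

lemma ins_st (hU : M.evalFrom (st M w (beta M w)) (U (st M w (beta M w))) = st M w (beta M w))
    (j : ℕ) : st M (ins M U w) (beta M w + (U (st M w (beta M w))).length + j) =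
      st M w (beta M w + j) := by
  have h1 : (w.take (beta M w) ++ U (st M w (beta M w))).length =
      beta M w + (U (st M w (beta M w))).length := by
    rw [List.length_append, List.length_take, min_eq_left (beta_le M w)]
  have h2 : M.eval (w.take (beta M w)) = st M w (beta M w) := rfl
  rw [st, ins, ← h1, List.take_length_add_append, DFA.eval, DFA.evalFrom_of_append,
    DFA.evalFrom_of_append, ← DFA.eval, h2, hU, ← st_seg M w (Nat.le_add_right _ j), seg,
    List.take_drop]

lemma ins_len : (ins M U w).length = w.length + (U (st M w (beta M w))).length := by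
  have := beta_le M w
  simp only [ins, List.length_append, List.length_take, List.length_drop]
  omega

lemma ins_beta (hU : M.evalFrom (st M w (beta M w)) (U (st M w (beta M w))) = st M w (beta M w))
    (hb : Br M (st M w (beta M w))) :
    beta M (ins M U w) = beta M w + (U (st M w (beta M w))).length := by
  have h0 := beta_le M w
  have h1 := ins_st hU 0
  simp only [add_zero] at h1
  refine beta_eq (by rw [ins_len]; omega) (by rwa [h1]) fun t k1 k2 => ?_
  rw [ins_len] at k2
  obtain ⟨j, rfl⟩ : ∃ j, t = beta M w + (U (st M w (beta M w))).length + j :=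
    ⟨t - (beta M w + (U (st M w (beta M w))).length), by omega⟩
  rw [ins_st hU]
  exact beta_nb M w _ (by omega) (by omega)

lemma ins_acc (hU : M.evalFrom (st M w (beta M w)) (U (st M w (beta M w))) = st M w (beta M w))
    (hw : w ∈ M.accepts) : ins M U w ∈ M.accepts := by
  have h0 := beta_le M w
  have h1 := ins_st hU (w.length - beta M w)
  have h2 : ∀ (x : List α) t, x.length ≤ t → st M x t = M.eval x := fun x t h => by
    rw [st, List.take_of_length_le h]
  rw [h2 _ _ (by rw [ins_len]; omega), h2 w _ (by omega)] at h1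
  rwa [DFA.mem_accepts, h1]

lemma ins_inj {U' : σ → List α} {w' : List α} (hl : ∀ q, (U q).length = (U' q).length)
    (hU : M.evalFrom (st M w (beta M w)) (U (st M w (beta M w))) = st M w (beta M w))
    (hb : Br M (st M w (beta M w)))
    (hU' : M.evalFrom (st M w' (beta M w')) (U' (st M w' (beta M w'))) = st M w' (beta M w'))
    (hb' : Br M (st M w' (beta M w'))) (h : ins M U w = ins M U' w') :
    w = w' ∧ U (st M w (beta M w)) = U' (st M w (beta M w)) := by
  have h1 := ins_beta hU hb
  have h2 := ins_beta hU' hb'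
  have h3 := ins_st hU 0
  have h4 := ins_st hU' 0
  simp only [add_zero] at h3 h4
  rw [← h1, h] at h3
  rw [← h2, h3] at h4
  rw [h, h2, ← h4, ← hl] at h1
  have h5 : beta M w' = beta M w := by omega
  have h6 := beta_le M w
  have h7 := beta_le M w'
  rw [ins, ins, ← h4, h5, List.append_assoc, List.append_assoc] at h
  obtain ⟨k1, k2⟩ := List.append_inj h (by simp only [List.length_take]; omega)
  obtain ⟨k3, k4⟩ := List.append_inj k2 (hl _)
  exact ⟨by rw [← List.take_append_drop (beta M w) w, k1, k4, List.take_append_drop], k3⟩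

lemma ev_drop (w : List α) (t : ℕ) : (pt gen w t)⁻¹ * ev gen w = ev gen (w.drop t) := by
  rw [inv_mul_eq_iff_eq_mul, pt, ← ev_append, List.take_append_drop]

end Ins

theorem Data.va [Finite α] [Finite σ] (D : Data gen M nf B P) (hacc : ∀ g, nf g ∈ M.accepts)
    (huniq : ∀ w ∈ M.accepts, nf (ev gen w) = w) (hμ : RMean μ) :
    ∃ H : Subgroup G, H.FiniteIndex ∧ ∀ a ∈ H, ∀ b ∈ H, a * b = b * a := by
  obtain ⟨m, e, A, hm, he, hA, hS, hC, hV⟩ := exists_core (ball_finite gen P)
  refine hV ?_
  by_contra hi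
  obtain ⟨R, r, hR⟩ := D.tame hA hm he hS hC
  have h1 : ∀ q : σ, ∃ u v : List α, u.length = v.length ∧
      (Br M q → u ≠ v ∧ M.evalFrom q u = q ∧ M.evalFrom q v = q) := fun q => by
    by_cases h : Br M q
    · obtain ⟨u, v, k1, k2, k3⟩ := h
      exact ⟨u, v, k2, fun _ => ⟨k1, k3⟩⟩
    · exact ⟨[], [], rfl, fun k => (h k).elim⟩
  choose u v h2 h3 using h1
  set S : Set G := {g | Br M (st M (nf g) (beta M (nf g))) ∧ ∃ a ∈ A, ∃ b ∈ Ball gen r,
    ev gen ((nf g).drop (beta M (nf g))) = a * b} with hS'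
  have key : ∀ x : σ → List α, (∀ q, Br M q → M.evalFrom q (x q) = q) →
      (∀ g ∈ S, nf (ev gen (ins M (fun q => wp e (x q)) (nf g))) =
        ins M (fun q => wp e (x q)) (nf g)) ∧
      (fun g => ev gen (ins M (fun q => wp e (x q)) (nf g))) '' S ⊆ S ∧
      μ ((fun g => ev gen (ins M (fun q => wp e (x q)) (nf g))) '' S) = μ S := by
    intro x hx
    have k1 : ∀ g ∈ S, nf (ev gen (ins M (fun q => wp e (x q)) (nf g))) =
        ins M (fun q => wp e (x q)) (nf g) := fun g hg =>
      huniq _ (ins_acc (loop_wp (hx _ hg.1) e) (hacc g))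
    refine ⟨k1, ?_, ?_⟩
    · rintro _ ⟨g, hg, rfl⟩
      have k2 := ins_beta (U := fun q => wp e (x q)) (loop_wp (hx _ hg.1) e) hg.1
      have k3 := ins_st (U := fun q => wp e (x q)) (loop_wp (hx _ hg.1) e) 0
      simp only [add_zero] at k3
      simp only [hS', Set.mem_ofPred_eq]
      rw [k1 g hg, k2, k3]
      refine ⟨hg.1, ?_⟩
      rw [ins, List.drop_left' (by
        rw [List.length_append, List.length_take, min_eq_left (beta_le M _)])]
      exact hg.2
    · refine hμ.piece (F := Set.image2 (fun b q => b⁻¹ * ev gen (x q) ^ e * b) (Ball gen r) Set.univ)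
        ((ball_finite gen r).image2 _ (Set.toFinite _)) _ _ (fun g hg g' hg' k => ?_)
        fun g hg => ?_
      · have k2 := congrArg nf k
        rw [k1 g hg, k1 g' hg'] at k2
        have k3 := (ins_inj (fun _ => rfl) (loop_wp (hx _ hg.1) e) hg.1 (loop_wp (hx _ hg'.1) e)
          hg'.1 k2).1
        rw [← D.ev_nf g, k3, D.ev_nf]
      · obtain ⟨-, a, ha, b, hb, k2⟩ := hg
        refine ⟨b, hb, st M (nf g) (beta M (nf g)), trivial, ?_⟩
        have k3 : g = ev gen ((nf g).take (beta M (nf g))) * (a * b) := by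
          rw [← k2, ← ev_append, List.take_append_drop, D.ev_nf]
        have k4 := (hC (ev gen (x (st M (nf g) (beta M (nf g))))) a ha).eq
        rw [ins, ev_append, ev_append, ev_wp, k2]
        beta_reduce
        set p := ev gen ((nf g).take (beta M (nf g)))
        set y := ev gen (x (st M (nf g) (beta M (nf g)))) ^ e
        calc _ = b⁻¹ * a⁻¹ * (y * a) * b := by rw [k4]; group
          _ = (p * (a * b))⁻¹ * (p * y * (a * b)) := by group
          _ = _ := by rw [← k3]
  obtain ⟨k1, k2, k3⟩ := key u fun q hq => (h3 q hq).2.1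
  obtain ⟨k4, k5, k6⟩ := key v fun q hq => (h3 q hq).2.2
  have h4 : μ S = 0 := by
    refine hμ.zero_of ?_
    refine le_trans (le_of_eq ?_) (hμ.mono (Set.union_subset k2 k5))
    rw [hμ.add, k3, k6]
    refine Set.disjoint_left.2 ?_
    rintro _ ⟨g, hg, rfl⟩ ⟨g', hg', k⟩
    have l1 := congrArg nf k
    simp only at l1
    rw [k1 g hg, k4 g' hg'] at l1
    have l2 := (ins_inj (fun q => by rw [wp_len, wp_len, h2]) (loop_wp (h3 _ hg.1).2.1 e) hg.1
      (loop_wp (h3 _ hg'.1).2.2 e) hg'.1 l1.symm).2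
    obtain ⟨e, rfl⟩ : ∃ e', e = e' + 1 := ⟨e - 1, by omega⟩
    simp only [wp_succ] at l2
    exact (h3 _ hg.1).1 (List.append_inj l2 (h2 _)).1
  have h5 := hμ.mul_zero (ball_finite gen r) (hμ.subgroup hA hi)
  have h6 : μ (S ∪ Set.image2 (· * ·) A (Ball gen r)) = 0 :=
    le_antisymm ((hμ.union_le _ _).trans (by rw [h4, h5, add_zero])) bot_le
  have h7 := hμ.mul_zero (ball_finite gen R).inv h6
  refine absurd ((hμ.mono (s := Set.univ) fun g _ => ?_).trans_eq h7) (by rw [hμ.univ]; simp)
  obtain ⟨h, hh, a, ha, b, hb, k⟩ := hR g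
  refine ⟨g * h, ?_, h⁻¹, by simpa using hh, by simp⟩
  by_cases k7 : beta M (nf (g * h)) = 0
  · rw [k7] at k
    exact Or.inr ⟨a, ha, b, hb, by simpa [pt] using k.symm⟩
  · exact Or.inl ⟨beta_br M _ k7, a, ha, b, hb, by rw [← ev_drop, D.ev_nf, k]⟩

end Pool.Agent.MP_1ca372_al.H84
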