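import Pool.Agent.MP_1ca372_al.H84.Basic

/-! Periodic times of a word. -/

namespace Pool.Agent.MP_1ca372_al.H84

variable {G : Type*} [Group G] {α σ : Type*} (gen : α → G) (M : DFA α σ) (P : ℕ)

/-- periodic time -/
def Per (w : List α) (t : ℕ) : Prop :=
  w.length ≤ t ∨ (t + P ≤ w.length ∧ st M w (t + P) = st M w t ∧ ¬ Br M (st M w t))

/-- the left translation along the path at time t -/
def zt (w : List α) (t : ℕ) : G := pt gen w (t + P) * (pt gen w t)⁻¹

/-- no branching state from time c on -/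
def NB (w : List α) (c : ℕ) : Prop := ∀ t, c ≤ t → t ≤ w.length → ¬ Br M (st M w t)

/-- bad times -/
def Bd (w : List α) (s : ℕ) : Set ℕ :=
  {t | s ≤ t ∧ t < w.length ∧ ¬ (Per M P w t ∧ FC (zt gen P w t))}

/-- a run of periodic times whose translation is not virtually FC -/
def Run (w : List α) (c l : ℕ) : Prop :=
  ∀ t, c ≤ t → t < c + l → Per M P w t ∧ ¬ FC (zt gen P w t)

variable {gen M P}

lemma NB.mono {w : List α} {c c' : ℕ} (h : NB M w c) (hc : c ≤ c') : NB M w c' :=
  fun t h1 h2 => h t (hc.trans h1) h2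

lemma Bd_finite (w : List α) (s : ℕ) : (Bd gen M P w s).Finite :=
  (Set.finite_lt_nat w.length).subset fun _ h => h.2.1

lemma Bd_succ (w : List α) (s : ℕ) : (Bd gen M P w s).ncard ≤ (Bd gen M P w (s + 1)).ncard + 1 := by
  refine le_trans (Set.ncard_le_ncard (t := insert s (Bd gen M P w (s + 1))) (fun t ht => ?_)
    ((Bd_finite w _).insert s)) (Set.ncard_insert_le _ _)
  rcases ht.1.eq_or_lt with h | h
  · exact Or.inl h.symm
  · exact Or.inr ⟨h, ht.2⟩

lemma zt_end {w : List α} {t : ℕ} (h : w.length ≤ t) : zt gen P w t = 1 := by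
  rw [zt, pt_end h, pt_end (by omega), mul_inv_cancel]

lemma Per.kind {w : List α} {t : ℕ} (h : Per M P w t) (h' : ¬ FC (zt gen P w t)) :
    t + P ≤ w.length ∧ st M w (t + P) = st M w t ∧ ¬ Br M (st M w t) := by
  refine h.resolve_left fun k => h' ?_
  rw [zt_end k]
  exact FC.one

lemma zt_reach {w : List α} {s t : ℕ} (hst : s ≤ t) (h1 : s + P ≤ w.length)
    (h2 : st M w (s + P) = st M w s) (h3 : ¬ Br M (st M w s)) (h4 : t + P ≤ w.length)
    (h5 : st M w (t + P) = st M w t) (h6 : ∃ y, M.evalFrom (st M w t) y = st M w s) :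
    zt gen P w t = zt gen P w s := by
  obtain ⟨y, hy⟩ := h6
  have k1 := st_seg M w hst
  have k2 := st_seg M w (Nat.le_add_right t P)
  have k3 := st_seg M w (Nat.le_add_right s P)
  have k4 := loop_eq h3 (u := seg w s t ++ seg w t (t + P) ++ y)
    (v := seg w s (s + P) ++ seg w s t ++ y)
    (by simp only [List.length_append, seg_len h1, seg_len h4]; omega)
    (by rw [DFA.evalFrom_of_append, DFA.evalFrom_of_append, k1, k2, h5, hy])
    (by rw [DFA.evalFrom_of_append, DFA.evalFrom_of_append, k3, h2, k1, hy])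
  have k5 := congrArg (ev gen) (List.append_cancel_right k4)
  rw [ev_append, ev_append] at k5
  rw [zt, zt, pt_seg w (Nat.le_add_right t P), pt_seg w (Nat.le_add_right s P), pt_seg w hst,
    mul_assoc (pt gen w s), k5]
  group

lemma zt_succ (hP : 2 ≤ P) {w : List α} {t : ℕ} (h1 : Per M P w t) (h2 : Per M P w (t + 1)) :
    zt gen P w (t + 1) = zt gen P w t := by
  rcases h1 with h1 | ⟨k1, k2, k3⟩
  · rw [zt_end h1, zt_end (by omega)]
  rcases h2 with h2 | ⟨k4, k5, -⟩
  · omega
  exact zt_reach (Nat.le_succ t) k1 k2 k3 k4 k5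
    ⟨seg w (t + 1) (t + P), by rw [st_seg M w (by omega), k2]⟩

lemma zt_const (hP : 2 ≤ P) {w : List α} {a b : ℕ} (hab : a ≤ b)
    (h : ∀ t, a ≤ t → t ≤ b → Per M P w t) : zt gen P w b = zt gen P w a := by
  induction b, hab using Nat.le_induction with
  | base => rfl
  | succ b hab ih =>
    rw [zt_succ hP (h b hab (by omega)) (h (b + 1) (by omega) le_rfl),
      ih fun t k1 k2 => h t k1 (by omega)]

lemma pt_iter (hP : 2 ≤ P) {w : List α} {a l : ℕ} (h : ∀ t, a ≤ t → t < a + l → Per M P w t)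
    (j : ℕ) (hj : j * P ≤ l) : pt gen w (a + j * P) = zt gen P w a ^ j * pt gen w a := by
  induction j with
  | zero => simp
  | succ j ih =>
    rw [add_mul, one_mul] at hj
    rw [pow_succ', mul_assoc, ← ih (by omega),
      ← zt_const (gen := gen) hP (Nat.le_add_right a (j * P)) fun t k1 k2 => h t k1 (by omega), zt,
      inv_mul_cancel_right, add_mul, one_mul, add_assoc]

/-- two fellow travelling words that are periodic on a long interval have the same translation -/
lemma fellow (hP : 2 ≤ P) {B : Set G} (hB : B.Finite) {w w' : List α}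
    (hw : ∀ t, (pt gen w t)⁻¹ * pt gen w' t ∈ B) {a l : ℕ} (hl : B.ncard * P ≤ l)
    (h : ∀ t, a ≤ t → t < a + l → Per M P w t) (h' : ∀ t, a ≤ t → t < a + l → Per M P w' t) :
    zt gen P w a ^ B.ncard.factorial = zt gen P w' a ^ B.ncard.factorial := by
  have key : ∀ i j : ℕ, i < j → j ≤ B.ncard →
      (pt gen w (a + i * P))⁻¹ * pt gen w' (a + i * P) =
        (pt gen w (a + j * P))⁻¹ * pt gen w' (a + j * P) →
      zt gen P w a ^ B.ncard.factorial = zt gen P w' a ^ B.ncard.factorial := by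
    intro i j hij hj k
    have h1 : j * P ≤ l := (Nat.mul_le_mul_right P hj).trans hl
    have h2 : i * P ≤ l := (Nat.mul_le_mul_right P hij.le).trans h1
    rw [pt_iter hP h i h2, pt_iter hP h j h1, pt_iter hP h' i h2, pt_iter hP h' j h1] at k
    obtain ⟨d, rfl⟩ := Nat.exists_eq_add_of_lt hij
    obtain ⟨c, hc⟩ : d + 1 ∣ B.ncard.factorial := Nat.dvd_factorial (by omega) (by omega)
    have h3 : zt gen P w a ^ (d + 1) = zt gen P w' a ^ (d + 1) := by
      set x := zt gen P w a
      set y := zt gen P w' a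
      set p := pt gen w a
      set q := pt gen w' a
      calc x ^ (d + 1) = x ^ (i + d + 1) * p * ((x ^ i * p)⁻¹ * (y ^ i * q)) * (y ^ i * q)⁻¹ := by
            group
        _ = _ := by rw [k]; group
    rw [hc, pow_mul, pow_mul, h3]
  by_contra hne
  have h1 : Function.Injective fun i : Fin (B.ncard + 1) =>
      (pt gen w (a + i * P))⁻¹ * pt gen w' (a + i * P) := fun i j hij => by
    apply Fin.ext
    by_contra k
    rcases Nat.lt_or_gt_of_ne k with k | k
    · exact hne (key i j k (by omega) hij)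
    · exact hne (key j i k (by omega) hij.symm)
  have h3 := Set.ncard_le_ncard_of_injOn (s := Set.univ) _ (fun i _ => hw _) h1.injOn hB
  rw [Set.ncard_univ, Nat.card_fin] at h3
  omega

lemma nonper_finite (w : List α) (c : ℕ) : {t | c ≤ t ∧ ¬ Per M P w t}.Finite :=
  (Set.finite_lt_nat w.length).subset fun _ h => lt_of_not_ge fun k => h.2 (Or.inl k)

lemma nonper_card [Finite σ] (hP : 2 ≤ P) (hp : ∀ q x, 0 < x.length → M.evalFrom q x = q →
    ∃ z : List α, z.length = P ∧ M.evalFrom q z = q) {w : List α} {c : ℕ} (h : NB M w c) :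
    {t | c ≤ t ∧ ¬ Per M P w t}.ncard ≤ Nat.card σ * P := by
  have key : ∀ s t, s < t → c ≤ s → ¬ Per M P w s → ¬ Per M P w t → st M w s = st M w t →
      s % P = t % P → False := by
    intro s t h1 h2 h3 h4 h5 h6
    have k1 : t < w.length := lt_of_not_ge fun k => h4 (Or.inl k)
    have k2 : s + P ≤ t := by
      have := Nat.le_of_dvd (by omega) ((Nat.modEq_iff_dvd' h1.le).1 h6)
      omega
    have k3 := st_seg M w h1.le
    rw [← h5] at k3
    have k4 : (seg w s t).length = t - s := seg_len k1.le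
    obtain ⟨z, k5, k6⟩ := hp _ _ (by omega) k3
    have k7 := loop_take (h s h2 (by omega)) (by omega) (by omega) k3 k6
    refine h3 (Or.inr ⟨by omega, ?_, h s h2 (by omega)⟩)
    rw [← st_seg M w (Nat.le_add_right s P)]
    convert k6 using 2
    rw [← k7, k5, seg, seg, List.take_drop, List.take_take, min_eq_left k2]
  have h1 := Set.ncard_le_ncard_of_injOn (s := {t | c ≤ t ∧ ¬ Per M P w t}) (t := Set.univ)
    (fun t => ((st M w t, ⟨t % P, Nat.mod_lt t (by omega)⟩) : σ × Fin P)) (fun _ _ => trivial)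
    (fun s hs t ht k => by
      have k1 : st M w s = st M w t := congrArg Prod.fst k
      have k2 : s % P = t % P := congrArg (fun x : σ × Fin P => x.2.1) k
      by_contra k3
      rcases Nat.lt_or_gt_of_ne k3 with k3 | k3
      · exact key s t k3 hs.1 hs.2 ht.2 k1 k2
      · exact key t s k3 ht.1 ht.2 hs.2 k1.symm k2.symm) (Set.toFinite _)
  rwa [Set.ncard_univ, Nat.card_prod, Nat.card_fin] at h1

/-- either a long run or few bad times -/
lemma run_or (hP : 2 ≤ P) {w : List α} {c n : ℕ} (hn : {t | c ≤ t ∧ ¬ Per M P w t}.ncard ≤ n)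
    (l : ℕ) : (∃ c', c ≤ c' ∧ Run gen M P w c' l) ∨ (Bd gen M P w c).ncard ≤ n * (l + 1) := by
  classical
  refine or_iff_not_imp_left.2 fun h => ?_
  have h1 : Bd gen M P w c ⊆
      ((nonper_finite (M := M) (P := P) w c).toFinset.biUnion fun y => Finset.Icc (y - l) y :
        Finset ℕ) := by
    intro t ht
    simp only [Finset.coe_biUnion, Set.mem_iUnion, Finset.mem_coe, Set.Finite.mem_toFinset,
      Finset.mem_Icc, Set.mem_ofPred_eq]
    by_contra k
    push Not at k
    have k1 : ∀ y, t ≤ y → y ≤ t + l → Per M P w y := fun y k2 k3 => by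
      by_contra k4
      have := k y ⟨ht.1.trans k2, k4⟩ (by omega)
      omega
    refine h ⟨t, ht.1, fun y k2 k3 => ⟨k1 y k2 k3.le, ?_⟩⟩
    rw [zt_const hP k2 fun u k4 k5 => k1 u k4 (by omega)]
    exact fun k4 => ht.2.2 ⟨k1 t le_rfl (by omega), k4⟩
  refine (Set.ncard_le_ncard h1 (Finset.finite_toSet _)).trans ?_
  rw [Set.ncard_coe_finset]
  refine (Finset.card_biUnion_le_card_mul _ _ (l + 1) fun y _ => ?_).trans ?_
  · rw [Nat.card_Icc]
    omega
  · rw [← Set.ncard_eq_toFinset_card _ (nonper_finite (M := M) (P := P) w c)]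
    exact Nat.mul_le_mul_right _ hn

/-- a tail with few bad times lies near the normal subgroup A -/
lemma tail_mem (hP : 2 ≤ P) {A : Subgroup G} (hA : A.Normal) {m : ℕ} (hm : 0 < m)
    (hS : ∀ x ∈ Ball gen P, FC x → x ^ m ∈ A) (w : List α) (k : ℕ) : ∀ s c, w.length ≤ s + k →
    (Bd gen M P w s).ncard ≤ c →
    ∃ a ∈ A, ∃ b ∈ Ball gen ((c + 1) * (m * P)), (pt gen w s)⁻¹ * ev gen w = a * b := by
  have h0 : 0 < m * P := Nat.mul_pos hm (by omega)
  induction k with
  | zero =>
    intro s c h1 _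
    exact ⟨1, A.one_mem, 1, one_mem_ball _ _, by rw [pt_end (by omega)]; simp⟩
  | succ k ih =>
    intro s c h1 h2
    by_cases h3 : w.length ≤ s + m * P
    · refine ⟨1, A.one_mem, _, ?_, (one_mul _).symm⟩
      rw [← pt_end h3]
      refine ball_mono ?_ (pt_ball w (Nat.le_add_right _ _))
      rw [add_mul]
      omega
    by_cases h4 : ∃ t, t < s + m * P ∧ t ∈ Bd gen M P w s
    · obtain ⟨t, k1, k2⟩ := h4
      have k3 : (Bd gen M P w (t + 1)).ncard < (Bd gen M P w s).ncard := by
        refine Set.ncard_lt_ncard ⟨fun u hu => ⟨?_, hu.2⟩, fun k => ?_⟩ (Bd_finite w s)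
        · have := hu.1
          have := k2.1
          omega
        · have := (k k2).1
          omega
      obtain ⟨c, rfl⟩ : ∃ c', c = c' + 1 := ⟨c - 1, by omega⟩
      have k4 := k2.1
      obtain ⟨a, ha, b, hb, k5⟩ := ih (t + 1) c (by omega) (by omega)
      have k6 := pt_ball (gen := gen) w (show s ≤ t + 1 by omega)
      refine ⟨_, hA.conj_mem a ha ((pt gen w s)⁻¹ * pt gen w (t + 1)), _,
        ball_mono ?_ (ball_mul k6 hb), ?_⟩
      · rw [add_mul (c + 1)]
        omega
      · calc _ = (pt gen w s)⁻¹ * pt gen w (t + 1) * ((pt gen w (t + 1))⁻¹ * ev gen w) := by group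
          _ = _ := by rw [k5]; group
    · push Not at h4
      have k1 : ∀ t, s ≤ t → t < s + m * P → Per M P w t ∧ FC (zt gen P w t) := fun t k2 k3 => by
        by_contra k4
        exact h4 t k3 ⟨k2, by omega, k4⟩
      have k0 : Bd gen M P w (s + m * P) ⊆ Bd gen M P w s :=
        fun u hu => ⟨le_trans (by omega) hu.1, hu.2⟩
      obtain ⟨a, ha, b, hb, k5⟩ := ih (s + m * P) c (by omega) (le_trans
        (Set.ncard_le_ncard k0 (Bd_finite w s)) h2)
      have k2 := pt_iter (gen := gen) hP (fun t k2 k3 => (k1 t k2 k3).1) m le_rfl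
      have k3 := pt_ball (gen := gen) w (Nat.le_add_right s P)
      rw [Nat.add_sub_cancel_left] at k3
      have k4 : (pt gen w s)⁻¹ * pt gen w (s + P) = (pt gen w s)⁻¹ * zt gen P w s * pt gen w s := by
        rw [zt]
        group
      have k6 := hS _ k3 (by rw [k4]; exact (k1 s le_rfl (by omega)).2.conj _)
      rw [k4, conj_pow'] at k6
      refine ⟨_, A.mul_mem k6 ha, b, hb, ?_⟩
      rw [mul_assoc _ a, ← k5, k2]
      group

end Pool.Agent.MP_1ca372_al.H84
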