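import Pool.Agent.MP_1ca372_al.H84.Uniq

/-! Finitely generated virtually abelian groups have polynomial growth and property (RD). -/

namespace Pool.Agent.MP_1ca372_al.H84

variable {G : Type*} [Group G] {n : ℕ} {gen : Fin n → G}

lemma growth {H : Subgroup G} (hi : H.FiniteIndex) (hc : ∀ a ∈ H, ∀ b ∈ H, a * b = b * a) :
    ∃ C D : ℕ, ∀ r, (Ball gen r).ncard ≤ C * (r + 1) ^ D := by
  classical
  let _ : CommGroup H := { (inferInstance : Group H) with
    mul_comm := fun a b => Subtype.ext (hc _ a.2 _ b.2) }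
  have := Fintype.ofFinite (G ⧸ H)
  have h0 : ∀ g : G, (Quotient.out (g : G ⧸ H))⁻¹ * g ∈ H := fun g =>
    QuotientGroup.eq.1 (QuotientGroup.out_eq' _)
  set s : (G ⧸ H) × Fin n → H := fun i => ⟨_, h0 (gen i.2 * Quotient.out i.1)⟩ with hs
  have h1 : ∀ p : List (Fin n), ∃ k : (G ⧸ H) × Fin n → ℕ, (∀ i, k i ≤ p.length) ∧
      ev gen p = Quotient.out ((ev gen p : G) : G ⧸ H) * ((∏ i, s i ^ k i : H) : G) *
        (Quotient.out ((1 : G) : G ⧸ H))⁻¹ := by
    intro p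
    induction p with
    | nil => exact ⟨0, by simp, by simp⟩
    | cons a p ih =>
      obtain ⟨k, k1, k2⟩ := ih
      refine ⟨k + Pi.single (((ev gen p : G) : G ⧸ H), a) 1, fun i => ?_, ?_⟩
      · have := k1 i
        have : (Pi.single (((ev gen p : G) : G ⧸ H), a) 1 : (G ⧸ H) × Fin n → ℕ) i ≤ 1 := by
          rw [Pi.single_apply]
          split_ifs <;> simp
        simp only [Pi.add_apply, List.length_cons]
        omega
      · have k3 : ev gen (a :: p) = gen a * ev gen p := by simp [ev]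
        have k4 : ((gen a * Quotient.out ((ev gen p : G) : G ⧸ H) : G) : G ⧸ H) =
            (gen a * ev gen p : G) := QuotientGroup.eq.2 (by simpa [mul_assoc] using h0 (ev gen p))
        have k5 : (∏ i, s i ^ (k + Pi.single (((ev gen p : G) : G ⧸ H), a) 1 :
            (G ⧸ H) × Fin n → ℕ) i) = s (((ev gen p : G) : G ⧸ H), a) * ∏ i, s i ^ k i := by
          simp only [Pi.add_apply, pow_add, Finset.prod_mul_distrib]
          rw [mul_comm, Finset.prod_eq_single (((ev gen p : G) : G ⧸ H), a)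
            (fun i _ hi => by simp [hi]) (by simp)]
          simp
        have k6 : (s (((ev gen p : G) : G ⧸ H), a) : G) =
            (Quotient.out ((gen a * ev gen p : G) : G ⧸ H))⁻¹ *
              (gen a * Quotient.out ((ev gen p : G) : G ⧸ H)) := by
          simp only [hs, k4]
        rw [k5, k3, Subgroup.coe_mul, k6]
        generalize ((∏ i, s i ^ k i : H) : G) = y at k2 ⊢
        nth_rw 1 [k2]
        group
  refine ⟨Fintype.card (G ⧸ H), Fintype.card ((G ⧸ H) × Fin n), fun r => ?_⟩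
  have h2 : Ball gen r ⊆ Set.range fun x : (G ⧸ H) × ((G ⧸ H) × Fin n → Fin (r + 1)) =>
      Quotient.out x.1 * ((∏ i, s i ^ (x.2 i : ℕ) : H) : G) *
        (Quotient.out ((1 : G) : G ⧸ H))⁻¹ := by
    rintro _ ⟨p, hp, rfl⟩
    obtain ⟨k, k1, k2⟩ := h1 p
    exact ⟨(_, fun i => ⟨k i, by have := k1 i; omega⟩), k2.symm⟩
  refine (Set.ncard_le_ncard h2 (Set.finite_range _)).trans ?_
  rw [← Set.image_univ]
  refine (Set.ncard_image_le (Set.toFinite _)).trans ?_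
  simp [Set.ncard_univ]

lemma weight_sum (hs : ∀ x : G, ∃ w, ev gen w = x) {C D : ℕ}
    (h : ∀ r, (Ball gen r).ncard ≤ C * (r + 1) ^ D) : ∃ c : ℝ, 0 ≤ c ∧ ∀ F : Finset G,
      ∑ y ∈ F, ((1 + ((sInf {k : ℕ | ∃ w : List (Fin n), w.length = k ∧
        (w.map gen).prod = y} : ℕ) : ℝ)) ^ (2 * (D + 1)))⁻¹ ≤ c := by
  classical
  have h1 : Summable fun k : ℕ => (C : ℝ) * (((k + 1 : ℕ) : ℝ) ^ 2)⁻¹ :=
    ((summable_nat_add_iff 1).2 (Real.summable_nat_pow_inv.2 one_lt_two)).mul_left _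
  refine ⟨∑' k : ℕ, (C : ℝ) * (((k + 1 : ℕ) : ℝ) ^ 2)⁻¹, tsum_nonneg
    fun k => by positivity, fun F => ?_⟩
  set l : G → ℕ := fun y => sInf {k : ℕ | ∃ w : List (Fin n), w.length = k ∧ (w.map gen).prod = y}
    with hl
  have h2 : ∀ y, y ∈ Ball gen (l y) := fun y => by
    obtain ⟨w, hw⟩ := hs y
    obtain ⟨w', k1, k2⟩ := Nat.sInf_mem (s := {k : ℕ | ∃ w : List (Fin n), w.length = k ∧
      (w.map gen).prod = y}) ⟨_, w, rfl, hw⟩
    exact ⟨w', k1.le, k2⟩
  rw [Finset.sum_comp (fun k : ℕ => ((1 + (k : ℝ)) ^ (2 * (D + 1)))⁻¹) l]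
  refine le_trans (Finset.sum_le_sum fun k _ => ?_) (h1.sum_le_tsum _ fun k _ => by positivity)
  have h3 : (F.filter fun y => l y = k).card ≤ C * (k + 1) ^ D := by
    refine le_trans ?_ (h k)
    rw [← Set.ncard_coe_finset]
    refine Set.ncard_le_ncard (fun y hy => ?_) (ball_finite gen k)
    rw [← (Finset.mem_filter.1 hy).2]
    exact h2 y
  have h4 : ((F.filter fun y => l y = k).card : ℝ) ≤ C * (k + 1) ^ D := by exact_mod_cast h3
  have h5 : (1 : ℝ) ≤ (k + 1) ^ D := one_le_pow₀ (by simp)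
  rw [nsmul_eq_mul, Nat.cast_add, Nat.cast_one, add_comm (1 : ℝ)]
  refine (mul_le_mul_of_nonneg_right h4 (by positivity)).trans ?_
  rw [mul_assoc]
  refine mul_le_mul_of_nonneg_left ?_ (by positivity)
  rw [show 2 * (D + 1) = D + D + 2 by ring, pow_add, pow_add, mul_inv, mul_inv, ← mul_assoc,
    ← mul_assoc, mul_inv_cancel₀ (by positivity), one_mul]
  exact mul_le_of_le_one_left (by positivity) (inv_le_one_of_one_le₀ h5)

lemma young (f g : G →₀ ℂ) : (∑' x : G, ‖∑ y ∈ f.support, f y * g (y⁻¹ * x)‖ ^ 2) ≤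
    (∑ y ∈ f.support, ‖f y‖) ^ 2 * ∑ z ∈ g.support, ‖g z‖ ^ 2 := by
  classical
  refine tsum_le_of_sum_le' (by positivity) fun s => ?_
  have h1 : ∀ y : G, ∑ x ∈ s, ‖g (y⁻¹ * x)‖ ^ 2 ≤ ∑ z ∈ g.support, ‖g z‖ ^ 2 := fun y => by
    rw [← Finset.sum_image (s := s) (g := fun x => y⁻¹ * x) (f := fun z => ‖g z‖ ^ 2)
      fun _ _ _ _ k => mul_left_cancel k,
      Finset.sum_subset (s₁ := g.support) (s₂ := s.image (fun x => y⁻¹ * x) ∪ g.support)
        Finset.subset_union_right fun z _ hz => by simp [Finsupp.notMem_support_iff.1 hz]]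
    exact Finset.sum_le_sum_of_subset_of_nonneg Finset.subset_union_left fun _ _ _ => by positivity
  calc _ ≤ ∑ x ∈ s, (∑ y ∈ f.support, ‖f y‖) * ∑ y ∈ f.support, ‖f y‖ * ‖g (y⁻¹ * x)‖ ^ 2 := by
        refine Finset.sum_le_sum fun x _ => le_trans ?_
          (Finset.sum_sq_le_sum_mul_sum_of_sq_le_mul _ (r := fun y => ‖f y‖ * ‖g (y⁻¹ * x)‖)
            (fun _ _ => by positivity) (fun _ _ => by positivity) fun _ _ => le_of_eq (by ring))
        refine pow_le_pow_left₀ (norm_nonneg _) ((norm_sum_le _ _).trans_eq ?_) 2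
        simp only [norm_mul]
    _ = (∑ y ∈ f.support, ‖f y‖) * ∑ y ∈ f.support, ‖f y‖ * ∑ x ∈ s, ‖g (y⁻¹ * x)‖ ^ 2 := by
        rw [← Finset.mul_sum, Finset.sum_comm]
        simp only [Finset.mul_sum]
    _ ≤ (∑ y ∈ f.support, ‖f y‖) * ∑ y ∈ f.support, ‖f y‖ * ∑ z ∈ g.support, ‖g z‖ ^ 2 := by
        gcongr with y
        exact h1 y
    _ = _ := by rw [← Finset.sum_mul]; ring

theorem rd_of_va (hs : ∀ x : G, ∃ w, ev gen w = x) {H : Subgroup G} (hi : H.FiniteIndex)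
    (hc : ∀ a ∈ H, ∀ b ∈ H, a * b = b * a) : ∃ C : ℝ, ∃ s : ℕ, ∀ f g : G →₀ ℂ,
      (∑' x : G, ‖∑ y ∈ f.support, f y * g (y⁻¹ * x)‖ ^ 2) ≤
        C * (∑ y ∈ f.support, ‖f y‖ ^ 2 * (1 + ((sInf {k : ℕ | ∃ w : List (Fin n), w.length = k ∧
          (w.map gen).prod = y} : ℕ) : ℝ)) ^ (2 * s)) * ∑ z ∈ g.support, ‖g z‖ ^ 2 := by
  obtain ⟨C, D, h⟩ := growth (gen := gen) hi hc
  obtain ⟨c, h1, h2⟩ := weight_sum hs h
  refine ⟨c, D + 1, fun f g => (young f g).trans (mul_le_mul_of_nonneg_right ?_ (by positivity))⟩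
  refine le_trans (Finset.sum_sq_le_sum_mul_sum_of_sq_le_mul _ (fun _ _ => by positivity)
    (fun _ _ => by positivity) fun y _ => le_of_eq ?_)
    (mul_le_mul_of_nonneg_right (h2 f.support) (by positivity))
  rw [mul_comm (‖f y‖ ^ 2), inv_mul_cancel_left₀ (by positivity)]

end Pool.Agent.MP_1ca372_al.H84
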