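import Pool.Agent.MP_1ca372_al.H84.Phase

/-! Every element has a neighbour whose normal form has a tame tail. -/

namespace Pool.Agent.MP_1ca372_al.H84

variable {G : Type*} [Group G] {α σ : Type*}

/-- normal forms with the fellow traveller property -/
structure Data (gen : α → G) (M : DFA α σ) (nf : G → List α) (B : Set G) (P : ℕ) : Prop where
  fin : B.Finite
  ev_nf : ∀ g, ev gen (nf g) = g
  ft : ∀ g a t, (pt gen (nf g) t)⁻¹ * pt gen (nf (g * gen a)) t ∈ B
  hP : 2 ≤ P
  hp : ∀ q x, 0 < x.length → M.evalFrom q x = q → ∃ z : List α, z.length = P ∧ M.evalFrom q z = q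

open Classical in
/-- last branching time -/
noncomputable def beta (M : DFA α σ) (w : List α) : ℕ :=
  Nat.findGreatest (fun t => Br M (st M w t)) w.length

lemma beta_le (M : DFA α σ) (w : List α) : beta M w ≤ w.length := by
  classical
  exact Nat.findGreatest_le _

lemma beta_nb (M : DFA α σ) (w : List α) : NB M w (beta M w + 1) := by
  classical
  exact fun t h1 h2 => Nat.findGreatest_is_greatest (P := fun t => Br M (st M w t)) h1 h2

lemma beta_br (M : DFA α σ) (w : List α) (h : beta M w ≠ 0) : Br M (st M w (beta M w)) := by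
  classical
  exact (Nat.findGreatest_eq_iff.1 rfl).2.1 h

lemma beta_eq {M : DFA α σ} {w : List α} {t : ℕ} (h1 : t ≤ w.length) (h2 : Br M (st M w t))
    (h3 : NB M w (t + 1)) : beta M w = t := by
  classical
  exact Nat.findGreatest_eq_iff.2 ⟨h1, fun _ => h2, fun n k1 k2 => h3 n k1 k2⟩

/-- a ball of normal forms with a common run -/
def Conf (gen : α → G) (M : DFA α σ) (nf : G → List α) (P k R T : ℕ) : Prop :=
  ∃ g a, ∀ h ∈ Ball gen R, NB M (nf (g * h)) a ∧ Run gen M P (nf (g * h)) a T ∧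
    ht M (st M (nf (g * h)) a) ≤ k

variable {gen : α → G} {M : DFA α σ} {nf : G → List α} {B : Set G} {P : ℕ}

lemma Data.chain (D : Data gen M nf B P) {g : G} {R a l : ℕ} (hl : B.ncard * P ≤ l)
    (H : ∀ h ∈ Ball gen R, ∀ t, a ≤ t → t < a + l → Per M P (nf (g * h)) t) :
    ∀ h ∈ Ball gen R, zt gen P (nf (g * h)) a ^ B.ncard.factorial =
      zt gen P (nf g) a ^ B.ncard.factorial := by
  rintro _ ⟨p, hp, rfl⟩
  induction p using List.reverseRecOn with
  | nil => simp
  | append_singleton p x ih =>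
    have h1 : p.length ≤ R := by
      rw [List.length_append] at hp
      omega
    have h2 := H _ ⟨_, hp, rfl⟩
    rw [← ih h1]
    rw [ev_append, ev_single, ← mul_assoc] at h2 ⊢
    exact (fellow D.hP D.fin (D.ft _ x) hl (H _ ⟨_, h1, rfl⟩) h2).symm

variable [Finite α] [Finite σ]

lemma Data.newconf (D : Data gen M nf B P) (R : ℕ) {T : ℕ} (hT : B.ncard * P < T) :
    ∃ l, 0 < l ∧ ∀ g c h0, h0 ∈ Ball gen R → (∀ h ∈ Ball gen R, NB M (nf (g * h)) c) →
      Run gen M P (nf (g * h0)) c l → ∃ a, c ≤ a ∧ ∀ h ∈ Ball gen R,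
        Run gen M P (nf (g * h)) a T ∧ zt gen P (nf (g * h)) a ^ B.ncard.factorial =
          zt gen P (nf (g * h0)) c ^ B.ncard.factorial := by
  classical
  refine ⟨((ball_finite gen R).toFinset.card * (Nat.card σ * P) + 1) * T,
    Nat.mul_pos (by omega) (by omega), fun g c h0 k0 k1 k2 => ?_⟩
  obtain ⟨a, h1, h2, h3⟩ := block (X := ((ball_finite gen R).toFinset.biUnion fun h =>
      (nonper_finite (M := M) (P := P) (nf (g * h)) c).toFinset : Finset ℕ))
    (Finset.finite_toSet _) (n := (ball_finite gen R).toFinset.card * (Nat.card σ * P)) (by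
      rw [Set.ncard_coe_finset]
      refine Finset.card_biUnion_le_card_mul _ _ _ fun h hh => ?_
      rw [← Set.ncard_eq_toFinset_card _ (nonper_finite (M := M) (P := P) (nf (g * h)) c)]
      exact nonper_card D.hP D.hp (k1 h (by simpa using hh))) c T
  have h4 : ∀ h ∈ Ball gen R, ∀ t, a ≤ t → t < a + T → Per M P (nf (g * h)) t := by
    intro h hh t k3 k4
    by_contra k5
    refine h3 t k3 k4 ?_
    simp only [Finset.coe_biUnion, Set.mem_iUnion, Finset.mem_coe, Set.Finite.mem_toFinset,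
      Set.mem_ofPred_eq]
    exact ⟨h, hh, h1.trans k3, k5⟩
  have h5 := D.chain hT.le h4
  have h6 : ∀ h ∈ Ball gen R, zt gen P (nf (g * h)) a ^ B.ncard.factorial =
      zt gen P (nf (g * h0)) c ^ B.ncard.factorial := fun h hh => by
    rw [h5 h hh, ← h5 h0 k0, zt_const D.hP h1 fun t k3 k4 => (k2 t k3 (by omega)).1]
  refine ⟨a, h1, fun h hh => ⟨fun t k3 k4 => ⟨h4 h hh t k3 k4, fun k5 => ?_⟩, h6 h hh⟩⟩
  rw [zt_const D.hP k3 fun u k6 k7 => h4 h hh u k6 (by omega)] at k5
  have k6 := k5.pow B.ncard.factorial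
  rw [h6 h hh] at k6
  exact (k2 c le_rfl (by omega)).2 (k6.of_pow (Nat.factorial_pos _))

lemma Data.step (D : Data gen M nf B P) {A : Subgroup G} (hA : A.Normal) {m e : ℕ} (hm : 0 < m)
    (he : 0 < e) (hS : ∀ x ∈ Ball gen P, FC x → x ^ m ∈ A)
    (hC : ∀ g, ∀ a ∈ A, Commute (g ^ e) a) {k : ℕ} (H : ∀ R T, Conf gen M nf P (k + 1) R T)
    (R T : ℕ) : Conf gen M nf P k R T := by
  classical
  set E := B.ncard.factorial with hE
  have hE0 : 0 < E := Nat.factorial_pos _
  obtain ⟨l, hl, h1⟩ := D.newconf R (T := T + B.ncard * P + 1) (by omega)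
  set r := (Nat.card σ * P * (l + 1) + 1 + 1) * (m * P) with hr
  set Φ : Set G := Set.image2 (fun b x => b⁻¹ * (x ^ E) ^ e * b) (Ball gen r)
    {x ∈ Ball gen P | ¬ FC x} with hΦ
  have h2 : Φ.Finite := (ball_finite gen r).image2 _ ((ball_finite gen P).subset fun _ h => h.1)
  have h3 : ∀ η : G, ∃ n, η ∈ Φ → ∃ h ∈ Ball gen n, h⁻¹ * η * h ∉ Φ := fun η => by
    by_cases k : η ∈ Φ
    · obtain ⟨b, -, x, hx, rfl⟩ := k
      have k1 : ¬ FinC (b⁻¹ * (x ^ E) ^ e * b) := fun k1 =>
        hx.2 ((k1.fc.of_conj.of_pow he).of_pow hE0)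
      obtain ⟨_, ⟨h, rfl⟩, k2⟩ := Set.not_subset.1 fun k2 => k1 (h2.subset k2)
      exact ⟨_, fun _ => ⟨h, ⟨nf h, le_rfl, D.ev_nf h⟩, k2⟩⟩
    · exact ⟨0, fun k1 => (k k1).elim⟩
  choose f hf using h3
  set R' := h2.toFinset.sup f with hR'
  obtain ⟨g, a, h4⟩ := H (R' + R) (B.ncard * P + 1)
  have h5 := D.chain (Nat.le_succ _) fun h hh t k1 k2 => ((h4 h hh).2.1 t k1 k2).1
  rw [← hE] at h5
  set ξ := zt gen P (nf g) a ^ E with hξ
  have h6 : ¬ FC ξ := fun k1 => by
    rw [← h5 1 (one_mem_ball _ _)] at k1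
    exact ((h4 1 (one_mem_ball _ _)).2.1 a le_rfl (by omega)).2 (k1.of_pow hE0)
  by_contra hne
  have h7 : ∀ h ∈ Ball gen R', (g * h)⁻¹ * ξ ^ e * (g * h) ∈ Φ := by
    intro h hh
    have hh' : h ∈ Ball gen (R' + R) := ball_mono (by omega) hh
    obtain ⟨k1, k2, -⟩ := h4 h hh'
    have k3 := k2 a le_rfl (by omega)
    have k4 := k3.1.kind k3.2
    set w := nf (g * h) with hw
    set t := Nat.findGreatest (fun t => a ≤ t ∧ Per M P w t ∧ zt gen P w t ^ E = ξ) w.length
      with ht'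
    obtain ⟨k5, k6, k7⟩ : a ≤ t ∧ Per M P w t ∧ zt gen P w t ^ E = ξ :=
      Nat.findGreatest_spec (P := fun t => a ≤ t ∧ Per M P w t ∧ zt gen P w t ^ E = ξ)
        (show a ≤ w.length by omega) ⟨le_rfl, k3.1, h5 h hh'⟩
    rcases run_or (gen := gen) D.hP (nonper_card D.hP D.hp (k1.mono (show a ≤ t + 1 by omega))) l
      with ⟨c, k8, k9⟩ | k8
    · exfalso
      have l1 := k9 c le_rfl (by omega)
      have l2 := l1.1.kind l1.2
      have l3 : zt gen P w c ^ E ≠ ξ := fun l3 =>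
        Nat.findGreatest_is_greatest (P := fun t => a ≤ t ∧ Per M P w t ∧ zt gen P w t ^ E = ξ)
          (show t < c by omega) (by omega) ⟨by omega, l1.1, l3⟩
      obtain ⟨a', l4, l5⟩ := h1 (g * h) c 1 (one_mem_ball _ _) (fun h' hh' => by
        rw [mul_assoc]
        exact (h4 _ (ball_mul hh hh')).1.mono (by omega)) (by rwa [mul_one])
      refine hne ⟨g * h, a', fun h' hh' => ?_⟩
      obtain ⟨l6, l7⟩ := l5 h' hh'
      obtain ⟨l8, l9, l10⟩ := h4 _ (ball_mul hh hh')
      have l11 := h5 _ (ball_mul hh hh')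
      rw [← mul_assoc] at l8 l9 l10 l11
      rw [mul_one] at l7
      refine ⟨l8.mono (by omega), fun u m1 m2 => l6 u m1 (by omega), ?_⟩
      have m1 := l9 a le_rfl (by omega)
      have m2 := m1.1.kind m1.2
      have m3 := l6 a' le_rfl (by omega)
      have m4 := m3.1.kind m3.2
      have m5 := ht_lt (st_seg M (nf (g * h * h')) (show a ≤ a' by omega)) fun m5 => l3 (by
        rw [← l7, zt_reach (show a ≤ a' by omega) m2.1 m2.2.1 m2.2.2 m4.1 m4.2.1 m5, l11])
      omega
    · obtain ⟨x, hx, b, hb, l1⟩ := tail_mem (M := M) D.hP hA hm hS w w.length t _ (by omega)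
        ((Bd_succ w t).trans (Nat.add_le_add_right k8 1))
      have l2 := pt_ball (gen := gen) w (Nat.le_add_right t P)
      rw [Nat.add_sub_cancel_left] at l2
      have l3 : (pt gen w t)⁻¹ * pt gen w (t + P) = (pt gen w t)⁻¹ * zt gen P w t * pt gen w t := by
        rw [zt]
        group
      refine ⟨b, hb, _, ⟨l2, fun l4 => h6 ?_⟩, ?_⟩
      · rw [l3] at l4
        rw [← k7]
        exact l4.of_conj.pow E
      · have l4 := (hC (((pt gen w t)⁻¹ * pt gen w (t + P)) ^ E) x hx).eq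
        have l5 : g * h = pt gen w t * (x * b) := by
          rw [← l1, hw, D.ev_nf, mul_inv_cancel_left]
        beta_reduce
        calc _ = b⁻¹ * x⁻¹ * ((((pt gen w t)⁻¹ * pt gen w (t + P)) ^ E) ^ e * x) * b := by
              rw [l4]; group
          _ = _ := by rw [l3, conj_pow', k7, conj_pow', l5]; group
  have h8 := h7 1 (one_mem_ball _ _)
  obtain ⟨h, k1, k2⟩ := hf _ h8
  refine k2 ?_
  convert h7 h (ball_mono (Finset.le_sup (f := f) (h2.mem_toFinset.2 h8)) k1) using 1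
  group

/-- the structure theorem -/
theorem Data.tame (D : Data gen M nf B P) {A : Subgroup G} (hA : A.Normal) {m e : ℕ} (hm : 0 < m)
    (he : 0 < e) (hS : ∀ x ∈ Ball gen P, FC x → x ^ m ∈ A)
    (hC : ∀ g, ∀ a ∈ A, Commute (g ^ e) a) : ∃ R r, ∀ g, ∃ h ∈ Ball gen R, ∃ a ∈ A,
      ∃ b ∈ Ball gen r, (pt gen (nf (g * h)) (beta M (nf (g * h))))⁻¹ * (g * h) = a * b := by
  by_contra hne
  have h1 : ∀ R T, Conf gen M nf P (Nat.card σ) R T := by
    intro R T
    obtain ⟨l, hl, h1⟩ := D.newconf R (T := T + B.ncard * P + 1) (by omega)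
    push Not at hne
    obtain ⟨g, hg⟩ := hne R ((Nat.card σ * P * (l + 1) + 1 + 1) * (m * P))
    obtain ⟨h0, k1, k2⟩ := Set.exists_max_image (Ball gen R) (fun h => beta M (nf (g * h)))
      (ball_finite gen R) ⟨1, one_mem_ball _ _⟩
    have k3 : ∀ h ∈ Ball gen R, NB M (nf (g * h)) (beta M (nf (g * h0)) + 1) := fun h hh =>
      (beta_nb M _).mono (Nat.add_le_add_right (k2 h hh) 1)
    rcases run_or (gen := gen) D.hP (nonper_card D.hP D.hp (k3 h0 k1)) l with ⟨c, k4, k5⟩ | k4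
    · obtain ⟨a, k6, k7⟩ := h1 g c h0 k1 (fun h hh => (k3 h hh).mono k4) k5
      exact ⟨g, a, fun h hh => ⟨(k3 h hh).mono (by omega),
        fun u m1 m2 => (k7 h hh).1 u m1 (by omega), ht_le _⟩⟩
    · obtain ⟨x, hx, b, hb, l1⟩ := tail_mem (M := M) D.hP hA hm hS (nf (g * h0))
        (nf (g * h0)).length (beta M (nf (g * h0))) _ (by omega)
        ((Bd_succ _ _).trans (Nat.add_le_add_right k4 1))
      rw [D.ev_nf] at l1
      exact (hg h0 k1 x hx b hb l1).elim
  have h2 : ∀ k, (∀ R T, Conf gen M nf P k R T) → False := by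
    intro k
    induction k with
    | zero =>
      intro H
      obtain ⟨g, a, h⟩ := H 0 0
      have := (h 1 (one_mem_ball _ _)).2.2
      have := ht_pos (M := M) (st M (nf (g * 1)) a)
      omega
    | succ k ih => exact fun H => ih (D.step hA hm he hS hC H)
  exact h2 _ h1

end Pool.Agent.MP_1ca372_al.H84
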