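import Pool.Agent.MP_1ca372_al.H84.Mean

/-! Reduction to an automatic structure with uniqueness, and the main theorem. -/

namespace Pool.Agent.MP_1ca372_al.H84

open scoped ENNReal Pointwise

lemma lex_split {α : Type*} {r : α → α → Prop} {v p : List α} (h : v.length = p.length)
    {v' s : List α} (k : List.Lex r (v ++ v') (p ++ s)) :
    List.Lex r v p ∨ (v = p ∧ List.Lex r v' s) := by
  induction v generalizing p with
  | nil =>
    obtain rfl := List.length_eq_zero_iff.1 h.symm
    exact Or.inr ⟨rfl, k⟩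
  | cons a v ih =>
    cases p with
    | nil => simp at h
    | cons b p =>
      cases k with
      | rel k => exact Or.inl (List.Lex.rel k)
      | cons k =>
        rcases ih (by simpa using h) k with k' | ⟨rfl, k'⟩
        · exact Or.inl (List.Lex.cons k')
        · exact Or.inr ⟨rfl, k'⟩

lemma lex_app {α : Type*} {r : α → α → Prop} {v p : List α} (k : List.Lex r v p)
    (h : v.length = p.length) (v' s : List α) : List.Lex r (v ++ v') (p ++ s) := by
  induction k with
  | nil => simp at h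
  | rel k => exact List.Lex.rel k
  | cons _ ih => exact List.Lex.cons (ih (by simpa using h))

variable {G : Type*} [Group G] {n : ℕ} {σ : Type*} (gen : Fin n → G) (M : DFA (Fin n) σ)

/-- shortlex least representatives -/
def Lmin : Language (Fin n) :=
  {w | w ∈ M.accepts ∧ ∀ v ∈ M.accepts, ev gen v = ev gen w → ¬ List.Shortlex (· < ·) v w}

/-- finite information about a word that decides its future -/
def info (K : ℕ) (p : List (Fin n)) : σ × Set (σ × Ball gen K × Prop) × Set (Ball gen K) :=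
  (M.eval p, {x | ∃ v : List (Fin n), v.length = p.length ∧ M.eval v = x.1 ∧
      ev gen p * x.2.1 = ev gen v ∧ (x.2.2 ↔ List.Lex (· < ·) v p)},
    {d | ∃ v ∈ M.accepts, v.length < p.length ∧ ev gen p * d = ev gen v})

variable {gen M}

lemma info_spec {K : ℕ} (hK : ∀ u ∈ M.accepts, ∀ v ∈ M.accepts, ev gen u = ev gen v →
    ∀ t, (pt gen u t)⁻¹ * pt gen v t ∈ Ball gen K) {p p' s : List (Fin n)}
    (h : info gen M K p = info gen M K p') (hs : p' ++ s ∈ Lmin gen M) : p ++ s ∈ Lmin gen M := by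
  simp only [info, Prod.mk.injEq] at h
  obtain ⟨h1, h2, h3⟩ := h
  have ha : ∀ x y z : List (Fin n), M.eval x = M.eval y → x ++ z ∈ M.accepts →
      y ++ z ∈ M.accepts := fun x y z k1 k2 => by
    rw [DFA.mem_accepts, DFA.eval, DFA.evalFrom_of_append] at k2 ⊢
    rwa [← DFA.eval, ← k1]
  have h4 : p ++ s ∈ M.accepts := ha _ _ _ h1.symm hs.1
  refine ⟨h4, fun v hv k1 k2 => ?_⟩
  have k3 := hK _ h4 v hv k1.symm p.length
  rw [pt, List.take_left' rfl] at k3
  rw [ev_append] at k1
  by_cases k4 : v.length < p.length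
  · rw [pt_end k4.le] at k3
    obtain ⟨v', l1, l2, l3⟩ := (Set.ext_iff.1 h3 ⟨_, k3⟩).1 ⟨v, hv, k4, by simp⟩
    refine hs.2 v' l1 ?_ (List.Shortlex.of_length_lt (by rw [List.length_append]; omega))
    rw [← l3, ev_append]
    simp [k1]
  · obtain ⟨v1, v2, rfl, k5⟩ : ∃ v1 v2 : List (Fin n), v = v1 ++ v2 ∧ v1.length = p.length :=
      ⟨v.take p.length, v.drop p.length, (List.take_append_drop _ _).symm, by
        rw [List.length_take]; omega⟩
    rw [pt, List.take_left' k5] at k3
    rw [ev_append] at k1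
    obtain ⟨v', l1, l2, l3, l4⟩ := (Set.ext_iff.1 h2
      (M.eval v1, ⟨_, k3⟩, List.Lex (· < ·) v1 p)).1 ⟨v1, k5, rfl, by simp, Iff.rfl⟩
    simp only at l2 l3 l4
    have l5 : ev gen (v' ++ v2) = ev gen (p' ++ s) := by
      rw [ev_append, ev_append, ← l3, mul_assoc, mul_assoc, k1, inv_mul_cancel_left]
    rcases List.shortlex_def.1 k2 with k6 | ⟨k6, k7⟩
    · refine hs.2 _ (ha _ _ _ l2.symm hv) l5 (List.Shortlex.of_length_lt ?_)
      simp only [List.length_append] at k6 ⊢
      omega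
    · simp only [List.length_append] at k6
      rcases lex_split k5 k7 with k8 | ⟨rfl, k8⟩
      · refine hs.2 _ (ha _ _ _ l2.symm hv) l5 (List.Shortlex.of_lex ?_ (lex_app (l4.1 k8) l1 _ _))
        simp only [List.length_append]
        omega
      · refine hs.2 (p' ++ v2) (ha _ _ _ h1 hv) ?_ (List.Shortlex.of_lex ?_
          (List.Lex.append_left _ k8 _))
        · rw [ev_append, ev_append, mul_left_cancel k1]
        · simp only [List.length_append]
          omega

lemma lmin_finite [Finite σ] {K : ℕ} (hK : ∀ u ∈ M.accepts, ∀ v ∈ M.accepts, ev gen u = ev gen v →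
    ∀ t, (pt gen u t)⁻¹ * pt gen v t ∈ Ball gen K) :
    (Set.range (Lmin gen M).leftQuotient).Finite := by
  have : Finite (Ball gen K) := ball_finite gen K
  refine (Set.finite_range fun c : σ × Set (σ × Ball gen K × Prop) × Set (Ball gen K) =>
    ({s | ∃ p, info gen M K p = c ∧ p ++ s ∈ Lmin gen M} : Language (Fin n))).subset ?_
  rintro _ ⟨p, rfl⟩
  refine ⟨info gen M K p, ?_⟩
  ext s
  exact ⟨fun ⟨p', k1, k2⟩ => info_spec hK k1.symm k2, fun k => ⟨p, rfl, k⟩⟩

/-- an amenable automatic group is virtually abelian -/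
theorem va_of_amenable [Finite σ] (hs : ∀ x : G, ∃ w ∈ M.accepts, ev gen w = x) {K : ℕ}
    (hK : ∀ u ∈ M.accepts, ∀ v ∈ M.accepts, (∃ w : List (Fin n), w.length ≤ 1 ∧
      ev gen u * ev gen w = ev gen v) → ∀ t, ∃ w : List (Fin n), w.length ≤ K ∧
        pt gen u t * ev gen w = pt gen v t)
    {m : Set G → ℝ≥0∞} (h1 : m Set.univ = 1) (h2 : ∀ s t, Disjoint s t → m (s ∪ t) = m s + m t)
    (h3 : ∀ (g : G) (s : Set G), m (g • s) = m s) :
    ∃ H : Subgroup G, H.FiniteIndex ∧ ∀ a ∈ H, ∀ b ∈ H, a * b = b * a := by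
  have hK' : ∀ u ∈ M.accepts, ∀ v ∈ M.accepts, ∀ w : List (Fin n), w.length ≤ 1 →
      ev gen u * ev gen w = ev gen v → ∀ t, (pt gen u t)⁻¹ * pt gen v t ∈ Ball gen K := by
    intro u hu v hv w k1 k2 t
    obtain ⟨x, k3, k4⟩ := hK u hu v hv ⟨w, k1, k2⟩ t
    exact ⟨x, k3, by rw [← k4, inv_mul_cancel_left]⟩
  have hf := lmin_finite (K := K) fun u hu v hv k => hK' u hu v hv [] (by simp) (by simpa using k)
  have : Finite (Set.range (Lmin gen M).leftQuotient) := hf
  have wf : WellFounded (List.Shortlex (· < · : Fin n → Fin n → Prop)) :=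
    List.Shortlex.wf wellFounded_lt
  set nf : G → List (Fin n) := fun g => wf.min {w | w ∈ M.accepts ∧ ev gen w = g} (hs g) with hnf
  have k1 : ∀ g, nf g ∈ M.accepts ∧ ev gen (nf g) = g := fun g => wf.min_mem _ (hs g)
  have k2 : ∀ g, nf g ∈ Lmin gen M := fun g => ⟨(k1 g).1, fun v hv k =>
    wf.not_lt_min {w | w ∈ M.accepts ∧ ev gen w = g} ⟨hv, k.trans (k1 g).2⟩⟩
  obtain ⟨P, k3, k4⟩ := exists_period (Lmin gen M).toDFA
  refine Data.va (gen := gen) (M := (Lmin gen M).toDFA) (nf := nf) (B := Ball gen K) (P := P)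
    (μ := fun s => m s⁻¹) ⟨ball_finite gen K, fun g => (k1 g).2, fun g a => hK' _ (k1 g).1 _
      (k1 _).1 [a] (by simp) (by rw [(k1 g).2, (k1 _).2, ev_single]), k3, k4⟩
    (fun g => by rw [Language.accepts_toDFA]; exact k2 g) (fun w hw => ?_)
    ⟨by simpa using h1, fun s t k => ?_, fun g s => ?_⟩
  · rw [Language.accepts_toDFA] at hw
    rcases trichotomous_of (List.Shortlex (· < · : Fin n → Fin n → Prop)) (nf (ev gen w)) w with
      k | k | k
    · exact (hw.2 _ (k1 _).1 (k1 _).2 k).elim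
    · exact k
    · exact ((k2 _).2 w hw.1 (k1 _).2.symm k).elim
  · rw [Set.union_inv, h2 s⁻¹ t⁻¹ (Set.disjoint_left.2 fun x l1 l2 => Set.disjoint_left.1 k l1 l2)]
  · rw [← h3 g⁻¹ s⁻¹]
    congr 1
    ext x
    simp only [Set.mem_inv, Set.mem_image, Set.mem_smul_set_iff_inv_smul_mem, inv_inv, smul_eq_mul,
      mul_inv_rev]
    exact ⟨fun ⟨y, l1, l2⟩ => by rwa [← l2, mul_inv_cancel_right],
      fun l => ⟨_, l, by simp⟩⟩

end Pool.Agent.MP_1ca372_al.H84
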